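import Pool.Agent.Y103.Ss.Main

/-!
# Semisimplicity of the Tate eigenvalues on products with varieties built from K3 type pieces

Let `Z` and `U` be arbitrary varieties over a finite field with `Q` elements (singular, not proper,
reducible). By the Künneth formula the cohomology with compact supports of `Z × U` in degree `2 c`
is the direct sum of the spaces `H^a_c(Z) ⊗ H^b_c(U)`, `a + b = 2 c`, and the homology groups of the
problem are their duals. So the statement `SS_c(Z × U)`, over all finite extensions of the base
field, says that the eigenvalue `Q ^ c` (and, for the powers of Frobenius, its powers) is semisimple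
on all these spaces: `∀ a b, a + b = 2 c → SemisimpleAt (F a ⊗ G b) Q c`, where `F a` and `G b` are
the Frobenius automorphisms of `H^a_c(Z)` and `H^b_c(U)`.

Suppose that the eigenvalues of Frobenius on the cohomology of `Z` are *built from pieces of K3
type*: up to roots of unity they are powers of `Q` times products of conjugates of numbers
`α 1, …, α r` (at most `n i` conjugates of `α i`), where `α i` is the normalised Frobenius number of
a K3 surface, of a cubic fourfold, of a variety of `K3^[n]`-type … (`IsFreeNumber`: three kinds of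
numbers, see there). So `Z` can be any variety which is stratified by pieces of products of such
varieties, of Hilbert schemes of points and of moduli spaces of sheaves on K3 surfaces, of projective
bundles over them etc. Let `U` be any variety such that the slopes of the Frobenius eigenvalues are
determined by Galois fields `L ∈ 𝓛` whose intersections with the fields `E i` of the numbers `α i` are
totally real (or `L = L₀ i`, see `IsAllowed`).

**Theorem.** `SS_c(Z × U)` holds for all `c` if and only if `SS_j(Z)` holds for all `j` and `SS_i(U)`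
holds for all `i`. More precisely, for each `c`: `SS_c(Z × U)` holds if and only if `SS_j(Z)` and
`SS_i(U)` hold for all `j + i = c` such that both spaces have Tate classes.
-/

set_option autoImplicit false

open NumberField TensorProduct

namespace Pool.Agent.Results.MP_16ef92_ag.K3PiecesTimesAll

open Pool.Agent.W458.RK Pool.Agent.Y103.Hk Pool.Agent.Y103.Sh Pool.Agent.Y103.Ss

/-- **Semisimplicity of the eigenvalue one for the products `Z × U`, where `Z` is built from pieces
of K3 type and `U` is an arbitrary variety with slopes in other fields.** -/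
theorem result {K : Type*} [Field K] [CharZero K] [IsAlgClosed K] (p : ℕ) [Fact p.Prime]
    (ι : AlgebraicClosure ℚ →+* PadicAlgCl p) (Q : ℕ) (hQ : 0 < Q)
    (r : ℕ) (E : Fin r → Type) [∀ i, Field (E i)] [∀ i, NumberField (E i)]
    [∀ i, IsCMField (E i)] (α : ∀ i, E i) (hα : ∀ i, IsFreeNumber ι (α i)) (n : Fin r → ℕ)
    (𝓛 : Set (IntermediateField ℚ (AlgebraicClosure ℚ)))
    (L₀ : Fin r → IntermediateField ℚ (AlgebraicClosure ℚ))
    (hL₀ : ∀ i, IsStable (L₀ i) ∧ SmallIntersection (E i) (L₀ i) (n i))
    (h𝓛 : ∀ i, ∀ L ∈ 𝓛, IsAllowed (E i) (L₀ i) L)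
    (hE : ∀ i j, i < j → IsAllowed (E i) (L₀ i) (galoisClosure (E j)))
    (A B : ℕ → Type*) [∀ a, AddCommGroup (A a)] [∀ a, Module K (A a)] [∀ a, Module.Finite K (A a)]
    [∀ b, AddCommGroup (B b)] [∀ b, Module K (B b)] [∀ b, Module.Finite K (B b)]
    (F : ∀ a, Module.End K (A a)) (G : ∀ b, Module.End K (B b))
    (hZ : IsBuiltFromLetters α n (Q : K) F) (hU : HasWeights (Q : K) G)
    (hslope : ∀ b ν, (G b).HasEigenvalue ν → IsSlopeProduct ι 𝓛 ν) :
    (∀ c : ℕ, (∀ a b, a + b = 2 * c → SemisimpleAt (TensorProduct.map (F a) (G b)) (Q : K) c) ↔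
      ∀ j i : ℕ, j + i = c → HasTateEigenvalue (F (2 * j)) (Q : K) j →
        HasTateEigenvalue (G (2 * i)) (Q : K) i →
        SemisimpleAt (F (2 * j)) (Q : K) j ∧ SemisimpleAt (G (2 * i)) (Q : K) i) ∧
    ((∃ d : ℕ, HasTateEigenvalue (F (2 * d)) (Q : K) d) →
      (∃ d : ℕ, HasTateEigenvalue (G (2 * d)) (Q : K) d) →
      ((∀ a b c : ℕ, a + b = 2 * c → SemisimpleAt (TensorProduct.map (F a) (G b)) (Q : K) c) ↔
        (∀ j : ℕ, SemisimpleAt (F (2 * j)) (Q : K) j) ∧
          ∀ i : ℕ, SemisimpleAt (G (2 * i)) (Q : K) i)) := by
  have H := famCond_of hα hL₀ h𝓛 hE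
  exact ⟨fun c => main_degree H hQ hZ hU hslope c,
    fun h1 h2 => main_all H hQ hZ hU hslope h1 h2⟩

end Pool.Agent.Results.MP_16ef92_ag.K3PiecesTimesAll
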