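import Pool.Agent.Y101.Th.Ss

/-!
# Semisimplicity of the eigenvalue one: hypersurfaces defined by trilinear forms
-/

set_option autoImplicit false

open CategoryTheory AlgebraicGeometry Pool.Agent.Y116.UV Pool.Agent.Y101.Th

namespace Pool.Agent.Results.MP_16ef92_ag.TrilinearHypersurfaces

variable {k Ω : Type} [Field k] [Field Ω] [CharZero Ω] {T : Homology k Ω}

/-- **Semisimplicity of the eigenvalue one and trilinear forms.** Let `k` be a finite field. The
eigenvalue one of the Frobenius is semisimple on `H_{2 i}(X, ℚ_ℓ(i))` for all separated schemes `X` of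
finite type over `k` and all `i` if and only if this is true for all systems of bilinear equations
`∑_{j, l} t_ijl y_j z_l = 0`, if and only if it is true for all hypersurfaces
`∑ t_ijl x_i y_j z_l = 0`; over a prime field the coefficients `0` and `1` are sufficient. The systems
with `n + 1` variables `z` are sufficient for all closed subschemes of `𝔸^n`. -/
theorem result [Finite k] (hT : IsHomology T) (hK : CycKnown T) :
    ((∀ X : Sch k, FT True X → Semisimple T X) ↔
      ∀ (a b c : ℕ) (t : Fin a → Fin b → Fin c → k), Semisimple T (bilS t)) ∧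
    ((Nat.card k).Prime → ((∀ X : Sch k, FT True X → Semisimple T X) ↔
      ∀ (a b c : ℕ) (t : Fin a → Fin b → Fin c → k), (∀ i j l, t i j l = 0 ∨ t i j l = 1) →
        Semisimple T (bilS t))) ∧
    (∀ n : ℕ, (∀ (a b : ℕ) (t : Fin a → Fin b → Fin (n + 1) → k), Semisimple T (bilS t)) →
      ∀ I : Ideal (MvPolynomial (Fin n) k),
        Semisimple T (aff k (MvPolynomial (Fin n) k ⧸ I))) ∧
    (Cayley T →
      ((∀ X : Sch k, FT True X → Semisimple T X) ↔
        ∀ (a b c : ℕ) (t : Fin a → Fin b → Fin c → k), Semisimple T (triS t)) ∧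
      ((Nat.card k).Prime → ((∀ X : Sch k, FT True X → Semisimple T X) ↔
        ∀ (a b c : ℕ) (t : Fin a → Fin b → Fin c → k), (∀ i j l, t i j l = 0 ∨ t i j l = 1) →
          Semisimple T (triS t)))) := by
  have h1 : ∀ {h : ∀ (a b c : ℕ) (t : Fin a → Fin b → Fin c → k), Semisimple T (bilS t)},
      ∀ X : Sch k, FT True X → Semisimple T X := fun {h} X hX =>
    ss_all hT hK (S := Set.univ) trivial trivial (fun n => has_all trivial trivial has_const)
      (fun a b c t _ => h a b c t) X hX
  have h2 : (Nat.card k).Prime → (∀ (a b c : ℕ) (t : Fin a → Fin b → Fin c → k),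
      (∀ i j l, t i j l = 0 ∨ t i j l = 1) → Semisimple T (bilS t)) →
      ∀ X : Sch k, FT True X → Semisimple T X := fun hk h X hX =>
    ss_all hT hK (S := {0, 1}) (Or.inl rfl) (Or.inr rfl)
      (fun n => has_all (Or.inl rfl) (Or.inr rfl)
        (has_int (Or.inl rfl) (Or.inr rfl) (int_surj hk)))
      (fun a b c t ht => h a b c t ht) X hX
  refine ⟨⟨fun h a b c t => h _ (ft_aff True), fun h => h1 (h := h)⟩,
    fun hk => ⟨fun h a b c t _ => h _ (ft_aff True), h2 hk⟩, fun n h I => ?_, fun hC =>
    ⟨⟨fun h a b c t => h _ (ft_aff True), fun h => h1 (h := fun a b c t => ss_tri hC t (h a b c t))⟩,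
      fun hk => ⟨fun h a b c t _ => h _ (ft_aff True), fun h =>
        h2 hk fun a b c t ht => ss_tri hC t (h a b c t ht)⟩⟩⟩
  exact closed_of_bil (dn_ss hT hK) (S := Set.univ) trivial trivial
    (has_all trivial trivial has_const) (fun a b t _ => h a b t) I

end Pool.Agent.Results.MP_16ef92_ag.TrilinearHypersurfaces
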